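import Pool.Agent.Helper69.ST.Goals
import Mathlib

/-! # Project ST, packet EX: smooth extension of `u ∘ φ ∘ Ψ_τ` -/

set_option autoImplicit false

open MeasureTheory Set Complex Metric Filter
open scoped ContDiff Topology ENNReal Manifold

namespace Pool.Agent.Helper16.ST.EX

open Pool.Agent.Helper45.Stek Pool.Agent.Helper69.ST

theorem t (hPH : Pool.Agent.Helper69.ST.S_PH) : Pool.Agent.Helper69.ST.S_EX := by
  intro p Ω f φ β V τ₀ hp hΩ hC hV τ hτ0 hτ u hu
  obtain ⟨h1, -⟩ := hPH p Ω f φ β hp hΩ.isOpen hC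
  have hφd : DifferentiableOn ℂ φ Ω := fun x hx =>
    (h1 x hx).2.2.differentiableAt.differentiableWithinAt
  have hφ : ContDiffOn ℝ ∞ φ Ω := by
    have h2 : ContDiffOn ℂ ∞ φ Ω := hφd.contDiffOn hΩ.isOpen
    exact h2.restrict_scalars ℝ
  have hΨ : ContDiff ℝ ∞ (fun x : ℂ => x + τ * V x) := by
    refine contDiff_id.add ?_
    exact contDiff_const.mul hV.sm
  set W : Set ℂ := {x | x + τ * V x ∈ Ω} with hW
  have hWo : IsOpen W := hΩ.isOpen.preimage hΨ.continuous
  have hKW : closure Ω ⊆ W := fun x hx => hV.shift τ hτ0 hτ x hx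
  have hK : IsCompact (closure Ω) := hΩ.bdd.isCompact_closure
  obtain ⟨δ, hδ, hδW⟩ := hK.exists_cthickening_subset_open hWo hKW
  obtain ⟨χ, hχ, -, hsupp, hone⟩ := exists_contMDiff_support_eq_eq_one_iff (n := (⊤ : ℕ∞)) 𝓘(ℝ, ℂ)
    (isOpen_thickening (δ := δ) (E := closure Ω)) isClosed_closure
    (self_subset_thickening hδ (closure Ω))
  have hχ' : ContDiff ℝ ∞ χ := hχ.contDiff
  refine ⟨fun x => χ x • u (φ (x + τ * V x)), ?_, ?_⟩
  · rw [contDiff_iff_contDiffAt]
    intro x
    by_cases hx : x ∈ W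
    · have h3 : ContDiffAt ℝ ∞ φ (x + τ * V x) :=
        hφ.contDiffAt (hΩ.isOpen.mem_nhds hx)
      have h4 : ContDiffAt ℝ ∞ (fun x => φ (x + τ * V x)) x :=
        ContDiffAt.comp x (g := φ) (f := fun x : ℂ => x + τ * V x) h3 hΨ.contDiffAt
      have h5 : ContDiffAt ℝ ∞ (fun x => u (φ (x + τ * V x))) x :=
        ContDiffAt.comp x (g := u) (f := fun x : ℂ => φ (x + τ * V x)) hu.contDiffAt h4
      exact hχ'.contDiffAt.smul h5
    · have hx' : x ∉ cthickening δ (closure Ω) := fun h => hx (hδW h)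
      have h6 : (cthickening δ (closure Ω))ᶜ ∈ 𝓝 x :=
        isClosed_cthickening.isOpen_compl.mem_nhds hx'
      have h7 : (fun x => χ x • u (φ (x + τ * V x))) =ᶠ[𝓝 x] fun _ => 0 := by
        filter_upwards [h6] with y hy
        have h8 : χ y = 0 := by
          by_contra h9
          have h10 : y ∈ Function.support χ := h9
          rw [hsupp] at h10
          exact hy (thickening_subset_cthickening δ _ h10)
        rw [h8, zero_smul]
      exact (contDiffAt_const (c := (0 : ℂ))).congr_of_eventuallyEq h7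
  · intro x hx
    have h11 : χ x = 1 := (hone x).1 hx
    simp [h11]

end Pool.Agent.Helper16.ST.EX
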